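import Pool.Agent.TH665.GP.F3

/-!
# MP_778b46_nt: for every pair (a, b), almost a positive proportion of the even numbers are
(a, b)-representable

For all natural numbers `a`, `b` the number of `n ≤ x` such that `2 n` is a sum of two distinct
numbers, an `(a + 1)`-fold iterated prime and a `(b + 1)`-fold iterated prime, is at least
`c x / ((log log x)^(2 b) log log log x)` for all large `x`, with `c > 0` depending on `a`, `b`.
-/

set_option autoImplicit false

open Filter

namespace Pool.Agent.Results.MP_778b46_nt.AllPairsNearPositive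

/-- Almost a positive proportion of the even numbers are `(a, b)`-representable. -/
theorem result (a b : ℕ) : ∃ c : ℝ, 0 < c ∧ ∀ᶠ x : ℕ in atTop,
    c * x / (Real.log (Real.log x) ^ (2 * b) * Real.log (Real.log (Real.log x))) ≤
      Set.ncard {n : ℕ | n ≤ x ∧ ∃ u v : ℕ, 0 < u ∧ 0 < v ∧
        Nat.iterate (fun k : ℕ => Nat.nth Nat.Prime (k - 1)) (a + 1) u ≠
          Nat.iterate (fun k : ℕ => Nat.nth Nat.Prime (k - 1)) (b + 1) v ∧
        Nat.iterate (fun k : ℕ => Nat.nth Nat.Prime (k - 1)) (a + 1) u +
          Nat.iterate (fun k : ℕ => Nat.nth Nat.Prime (k - 1)) (b + 1) v = 2 * n} :=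
  Pool.Agent.TH665.GP.main a b

end Pool.Agent.Results.MP_778b46_nt.AllPairsNearPositive
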